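import Mathlib

/-!
Project CY (problem MP_d52053_gt): the sharp constant in `Y_1(X, ∂X) ≥ d_n Y(∂X)` for conformally
compact Einstein manifolds.  Definitions.

A manifold with boundary `X` of dimension `n + 1` is a charted space over the Euclidean half space
`{x₀ ≥ 0}`.  Tensors are given by their components in the charts of the atlas.
-/

set_option autoImplicit false

open scoped Manifold ContDiff ENNReal
open MeasureTheory Set

namespace Pool.Agent.CY

noncomputable section

/-- Coordinate space. -/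
abbrev V (m : ℕ) : Type := EuclideanSpace ℝ (Fin m)

/-- The closed half space `{x₀ ≥ 0}`. -/
def Hs (n : ℕ) : Set (V (n + 1)) := {x | 0 ≤ x 0}

/-- The open half space `{x₀ > 0}`. -/
def Ho (n : ℕ) : Set (V (n + 1)) := {x | 0 < x 0}

/-- The point `(t, z)`. -/
def cons {n : ℕ} (t : ℝ) (z : V n) : V (n + 1) := WithLp.toLp 2 (Fin.cons t (fun i => z i))

/-- The boundary point `(0, z)` of the half space. -/
def bd {n : ℕ} (z : V n) : V (n + 1) := cons 0 z

/-- The tangential part `z` of `(t, z)`. -/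
def tl {n : ℕ} (x : V (n + 1)) : V n := WithLp.toLp 2 (fun i => x i.succ)

/-- The partial derivative `∂f/∂x_i` at `y`, relative to the set `S` (the closed half space near boundary
points, the whole space otherwise). -/
def pd {m : ℕ} (S : Set (V m)) (i : Fin m) (f : V m → ℝ) (y : V m) : ℝ :=
  fderivWithin ℝ f S y (EuclideanSpace.single i 1)

/-- Matrix valued functions: the components of a metric in a chart. -/
abbrev MF (m : ℕ) : Type := V m → Matrix (Fin m) (Fin m) ℝ

variable {m : ℕ}

/-- The Christoffel symbol `Γ^k_{ij}` of the metric with components `g`. -/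
def Gam (S : Set (V m)) (g : MF m) (k i j : Fin m) (y : V m) : ℝ :=
  (1 / 2) * ∑ l, (g y)⁻¹ k l *
    (pd S i (fun z => g z j l) y + pd S j (fun z => g z i l) y - pd S l (fun z => g z i j) y)

/-- The Ricci tensor `R_{ij} = ∂_k Γ^k_{ij} - ∂_j Γ^k_{ik} + Γ^k_{kl} Γ^l_{ij} - Γ^k_{jl} Γ^l_{ik}`. -/
def Ric (S : Set (V m)) (g : MF m) (i j : Fin m) (y : V m) : ℝ :=
  ∑ k, (pd S k (Gam S g k i j) y - pd S j (Gam S g k i k) y +
    ∑ l, (Gam S g k k l y * Gam S g l i j y - Gam S g k j l y * Gam S g l i k y))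

/-- The scalar curvature. -/
def scal (S : Set (V m)) (g : MF m) (y : V m) : ℝ := ∑ i, ∑ j, (g y)⁻¹ i j * Ric S g i j y

/-- The metric induced on the boundary `{x₀ = 0}` of the half space. -/
def tang {n : ℕ} (g : MF (n + 1)) : MF n := fun z => Matrix.of fun a b => g (bd z) a.succ b.succ

/-- The mean curvature (trace of the second fundamental form with respect to the outward unit normal) of
the boundary `{x₀ = 0}` of the half space, at the boundary point `(0, z)`:
`H = (g^{00})^{-1/2} k^{ab} Γ^0_{ab}`, where `k` is the induced metric. -/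
def meanCurv {n : ℕ} (g : MF (n + 1)) (z : V n) : ℝ :=
  (∑ a, ∑ b, (tang g z)⁻¹ a b * Gam (Hs n) g 0 a.succ b.succ (bd z)) / Real.sqrt ((g (bd z))⁻¹ 0 0)

variable {n : ℕ} {X : Type} [TopologicalSpace X] [ChartedSpace (EuclideanHalfSpace (n + 1)) X]

/-- The coordinates of the point `p` in the chart `e`. -/
def co (e : OpenPartialHomeomorph X (EuclideanHalfSpace (n + 1))) (p : X) : V (n + 1) := (e p).1

/-- The set of coordinates of the chart `e`, a relatively open subset of the closed half space. -/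
def dom (e : OpenPartialHomeomorph X (EuclideanHalfSpace (n + 1))) : Set (V (n + 1)) :=
  (fun y : EuclideanHalfSpace (n + 1) => y.1) '' e.target

/-- The inverse of the chart `e`: the point with coordinates `y`. -/
def pt (e : OpenPartialHomeomorph X (EuclideanHalfSpace (n + 1))) (y : V (n + 1)) : X :=
  e.symm ((𝓡∂ (n + 1)).symm y)

variable (n X) in
/-- Riemannian metrics of class `C^3` (up to the boundary) on the manifold with boundary `X`: positive
definite symmetric matrices depending `C^3` on the coordinates, in every chart of the atlas, which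
transform like a covariant 2-tensor. -/
structure Metric where
  /-- The matrix of the metric in the chart `e`, as a function of the coordinates. -/
  G : OpenPartialHomeomorph X (EuclideanHalfSpace (n + 1)) → MF (n + 1)
  posDef : ∀ e ∈ atlas (EuclideanHalfSpace (n + 1)) X, ∀ y ∈ dom e, (G e y).PosDef
  smooth : ∀ e ∈ atlas (EuclideanHalfSpace (n + 1)) X, ∀ i j, ContDiffOn ℝ 3 (fun y => G e y i j) (dom e)
  compat : ∀ e ∈ atlas (EuclideanHalfSpace (n + 1)) X, ∀ e' ∈ atlas (EuclideanHalfSpace (n + 1)) X,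
    ∀ y ∈ dom e, pt e y ∈ e'.source → ∀ i j, G e y i j =
      ∑ k, ∑ l, pd (Hs n) i (fun z => co e' (pt e z) k) y * pd (Hs n) j (fun z => co e' (pt e z) l) y *
        G e' (co e' (pt e y)) k l

/-- `μ` is the volume measure of `g`: in every chart it has the density `sqrt (det g)`. -/
def IsVol [MeasurableSpace X] (g : Metric n X) (μ : Measure X) : Prop :=
  ∀ e ∈ atlas (EuclideanHalfSpace (n + 1)) X, ∀ A ⊆ e.source, MeasurableSet A →
    μ A = ∫⁻ y in co e '' A, ENNReal.ofReal (Real.sqrt (g.G e y).det)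

/-- `σ` is the volume measure of the metric induced by `g` on the boundary (a measure on `X` carried by the
boundary): in every chart it has the density `sqrt (det k)` in the coordinates `z` of the boundary points
`(0, z)`, where `k` is the induced metric. -/
def IsBVol [MeasurableSpace X] (g : Metric n X) (σ : Measure X) : Prop :=
  σ ((𝓡∂ (n + 1)).boundary X)ᶜ = 0 ∧
  ∀ e ∈ atlas (EuclideanHalfSpace (n + 1)) X, ∀ A ⊆ e.source, MeasurableSet A →
    σ A = ∫⁻ z in {z : V n | bd z ∈ co e '' A}, ENNReal.ofReal (Real.sqrt (tang (g.G e) z).det)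

/-- The volume measure of `g`. -/
def vol [MeasurableSpace X] (g : Metric n X) : Measure X := Classical.epsilon (IsVol g)

/-- The volume measure of the metric induced by `g` on the boundary. -/
def bvol [MeasurableSpace X] (g : Metric n X) : Measure X := Classical.epsilon (IsBVol g)

/-- The scalar curvature of `g`, as a function on `X`. -/
def scalX (g : Metric n X) (p : X) : ℝ :=
  scal (Hs n) (g.G (chartAt (EuclideanHalfSpace (n + 1)) p)) (co (chartAt (EuclideanHalfSpace (n + 1)) p) p)

/-- The mean curvature of the boundary, as a function on `X` (meaningful on the boundary). -/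
def meanX (g : Metric n X) (p : X) : ℝ :=
  meanCurv (g.G (chartAt (EuclideanHalfSpace (n + 1)) p))
    (tl (co (chartAt (EuclideanHalfSpace (n + 1)) p) p))

/-- The scalar curvature of the metric induced by `g` on the boundary, as a function on `X` (meaningful on
the boundary). -/
def bscalX (g : Metric n X) (p : X) : ℝ :=
  scal univ (tang (g.G (chartAt (EuclideanHalfSpace (n + 1)) p)))
    (tl (co (chartAt (EuclideanHalfSpace (n + 1)) p) p))

variable (n X) in
/-- The positive smooth functions on `X`. -/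
def PosSmooth : Set (X → ℝ) := {u | ContMDiff (𝓡∂ (n + 1)) 𝓘(ℝ) ∞ u ∧ ∀ p, 0 < u p}

/-- `h` is the metric `u² g`. -/
def IsConf (u : X → ℝ) (g h : Metric n X) : Prop :=
  ∀ e ∈ atlas (EuclideanHalfSpace (n + 1)) X, ∀ y ∈ dom e, h.G e y = (u (pt e y)) ^ 2 • g.G e y

variable [MeasurableSpace X]

/-- The functional `E(h) = ∫_X R_h dμ_h + 2 ∫_{∂X} H_h dσ_h`. -/
def energy (h : Metric n X) : ℝ := ∫ p, scalX h p ∂(vol h) + 2 * ∫ p, meanX h p ∂(bvol h)

/-- The invariant `Y_1(X, ∂X, [g])`: the infimum of `E(h) / Vol(X, h)^{(n-1)/(n+1)}` over the metrics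
`h = u² g`, `u` positive and smooth. -/
def Y1 (g : Metric n X) : ℝ :=
  sInf {y : ℝ | ∃ (u : X → ℝ) (h : Metric n X), u ∈ PosSmooth n X ∧ IsConf u g h ∧
    y = energy h / (vol h univ).toReal ^ (((n : ℝ) - 1) / ((n : ℝ) + 1))}

/-- The Yamabe constant of the conformal class of the metric induced by `g` on the boundary: the infimum of
`∫_{∂X} R_k / Vol(∂X, k)^{(n-2)/n}`, where `k` is induced by `u² g`, `u` positive and smooth. -/
def YB (g : Metric n X) : ℝ :=
  sInf {y : ℝ | ∃ (u : X → ℝ) (h : Metric n X), u ∈ PosSmooth n X ∧ IsConf u g h ∧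
    y = (∫ p, bscalX h p ∂(bvol h)) / (bvol h univ).toReal ^ (((n : ℝ) - 2) / (n : ℝ))}

/-- `(X, ρ⁻² g)` is a conformally compact Einstein manifold: `ρ` is a smooth defining function of the
boundary and the Ricci tensor of `ρ⁻² g` is `-n ρ⁻² g` in the interior. -/
structure IsCCE (g : Metric n X) (ρ : X → ℝ) : Prop where
  smooth : ContMDiff (𝓡∂ (n + 1)) 𝓘(ℝ) ∞ ρ
  nonneg : ∀ p, 0 ≤ ρ p
  zero_iff : ∀ p, ρ p = 0 ↔ p ∈ (𝓡∂ (n + 1)).boundary X
  deriv_ne : ∀ e ∈ atlas (EuclideanHalfSpace (n + 1)) X, ∀ y ∈ dom e, y 0 = 0 →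
    pd (Hs n) 0 (fun z => ρ (pt e z)) y ≠ 0
  einstein : ∀ e ∈ atlas (EuclideanHalfSpace (n + 1)) X, ∀ y ∈ dom e, 0 < y 0 → ∀ i j,
    Ric (Hs n) (fun z => ((ρ (pt e z)) ^ 2)⁻¹ • g.G e z) i j y =
      -(n : ℝ) * (((ρ (pt e y)) ^ 2)⁻¹ * g.G e y i j)

/-- The volume `ω_k = 2 π^{(k+1)/2} / Γ((k+1)/2)` of the unit sphere `S^k`. -/
def om (k : ℕ) : ℝ := 2 * Real.pi ^ (((k : ℝ) + 1) / 2) / Real.Gamma (((k : ℝ) + 1) / 2)

/-- `n(n+1) (ω_{n+1}/2)^{2/(n+1)}`, the value of `Y_1` for the hemisphere. -/
def An (n : ℕ) : ℝ := (n : ℝ) * ((n : ℝ) + 1) * (om (n + 1) / 2) ^ ((2 : ℝ) / ((n : ℝ) + 1))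

/-- `n(n-1) ω_n^{2/n}`, the Yamabe constant of the round sphere `S^n`. -/
def Yn (n : ℕ) : ℝ := (n : ℝ) * ((n : ℝ) - 1) * om n ^ ((2 : ℝ) / (n : ℝ))

end

end Pool.Agent.CY
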