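import Pool.Agent.CY.Sob

/-!
Project CY: differential operators in charts and on `X`, frames (definitions used in the proofs only).
-/

set_option autoImplicit false

open scoped Manifold ContDiff
open MeasureTheory Set Filter Topology

namespace Pool.Agent.CY

noncomputable section

variable {m : ℕ}

/-- The gradient product `⟨df, dk⟩ = g^{ij} ∂_i f ∂_j k`. -/
def gip (S : Set (V m)) (g : MF m) (f k : V m → ℝ) (y : V m) : ℝ :=
  ∑ i, ∑ j, (g y)⁻¹ i j * (pd S i f y * pd S j k y)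

/-- The Hessian `∇²_{ij} f = ∂_i ∂_j f - Γ^k_{ij} ∂_k f`. -/
def hess (S : Set (V m)) (g : MF m) (f : V m → ℝ) (i j : Fin m) (y : V m) : ℝ :=
  pd S i (pd S j f) y - ∑ k, Gam S g k i j y * pd S k f y

/-- The Laplacian `Δf = g^{ij} ∇²_{ij} f`. -/
def lap (S : Set (V m)) (g : MF m) (f : V m → ℝ) (y : V m) : ℝ :=
  ∑ i, ∑ j, (g y)⁻¹ i j * hess S g f i j y

/-- The outward normal derivative at the boundary point `(0, z)`. -/
def nder {n : ℕ} (g : MF (n + 1)) (f : V (n + 1) → ℝ) (z : V n) : ℝ :=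
  -(∑ j, (g (bd z))⁻¹ 0 j * pd (Hs n) j f (bd z)) / Real.sqrt ((g (bd z))⁻¹ 0 0)

variable {n : ℕ} {X : Type} [TopologicalSpace X] [ChartedSpace (EuclideanHalfSpace (n + 1)) X]

/-- The coordinate expression of the function `u`. -/
def loc (e : OpenPartialHomeomorph X (EuclideanHalfSpace (n + 1))) (u : X → ℝ) : V (n + 1) → ℝ :=
  fun y => u (pt e y)

variable (n X) in
/-- Functions of class `C^1` on `X`. -/
def C1 : Set (X → ℝ) := {u | ContMDiff (𝓡∂ (n + 1)) 𝓘(ℝ) 1 u}

/-- The preferred chart at `p`. -/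
abbrev ch (p : X) : OpenPartialHomeomorph X (EuclideanHalfSpace (n + 1)) :=
  chartAt (EuclideanHalfSpace (n + 1)) p

/-- `⟨du, dv⟩` on `X`. -/
def gipX (g : Metric n X) (u v : X → ℝ) (p : X) : ℝ :=
  gip (Hs n) (g.G (ch p)) (loc (ch p) u) (loc (ch p) v) (co (ch p) p)

/-- The Laplacian on `X`. -/
def lapX (g : Metric n X) (u : X → ℝ) (p : X) : ℝ :=
  lap (Hs n) (g.G (ch p)) (loc (ch p) u) (co (ch p) p)

/-- The outward normal derivative on the boundary of `X`. -/
def nderX (g : Metric n X) (u : X → ℝ) (p : X) : ℝ :=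
  nder (g.G (ch p)) (loc (ch p) u) (tl (co (ch p) p))

/-- The conformal Laplacian `L u = -(4n/(n-1)) Δu + R u`. -/
def Lop (g : Metric n X) (u : X → ℝ) (p : X) : ℝ := -cn n * lapX g u p + scalX g p * u p

/-- The boundary operator `B u = (4n/(n-1)) ∂_ν u + 2 H u`. -/
def Bop (g : Metric n X) (u : X → ℝ) (p : X) : ℝ := cn n * nderX g u p + 2 * meanX g p * u p

/-- A frame: finitely many charts with a quadratic partition of unity and square roots of the inverse
metric. -/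
structure Frame (g : Metric n X) where
  N : ℕ
  e : Fin N → OpenPartialHomeomorph X (EuclideanHalfSpace (n + 1))
  e_mem : ∀ i, e i ∈ atlas (EuclideanHalfSpace (n + 1)) X
  η : Fin N → X → ℝ
  η_smooth : ∀ i, ContMDiff (𝓡∂ (n + 1)) 𝓘(ℝ) ∞ (η i)
  η_nonneg : ∀ i p, 0 ≤ η i p
  η_supp : ∀ i, tsupport (η i) ⊆ (e i).source
  η_sum : ∀ p, ∑ i, η i p ^ 2 = 1
  S : Fin N → MF (n + 1)
  S_cont : ∀ i j k, ContinuousOn (fun y => S i y j k) (dom (e i))
  S_sq : ∀ i, ∀ y ∈ dom (e i), (S i y).transpose * S i y = ((g.G (e i)) y)⁻¹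

/-- The index space of the gradient components. -/
abbrev Frame.F {g : Metric n X} (f : Frame g) : Type := EuclideanSpace ℝ (Fin f.N × Fin (n + 1))

/-- The gradient of `u`, with components `η_i S_i ∂u`; `‖D u‖² = |du|²_g`. -/
def Frame.D {g : Metric n X} (f : Frame g) (u : X → ℝ) (p : X) : f.F :=
  WithLp.toLp 2 fun ij => f.η ij.1 p *
    ∑ k, f.S ij.1 (co (f.e ij.1) p) ij.2 k * pd (Hs n) k (loc (f.e ij.1) u) (co (f.e ij.1) p)

end

end Pool.Agent.CY
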