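import Pool.Agent.CY.Defs

/-!
Project CY, part S2 (abstract analysis): definitions.

`X` is a compact space with finite Borel measures `μ` (volume) and `σ` (boundary volume), `A` a class of
continuous functions (the `C^1` functions), `D u : X → F` the gradient of `u ∈ A` (components with
respect to finitely many vector fields, `|du|² = ‖D u‖²`).
-/

set_option autoImplicit false

open scoped ENNReal ContDiff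
open MeasureTheory Set Filter Topology

namespace Pool.Agent.CY

noncomputable section

/-- The critical exponent `2(n+1)/(n-1)` of the interior. -/
def pp (n : ℕ) : ℝ := 2 * ((n : ℝ) + 1) / ((n : ℝ) - 1)

/-- The critical exponent `2n/(n-1)` of the boundary. -/
def qq (n : ℕ) : ℝ := 2 * (n : ℝ) / ((n : ℝ) - 1)

/-- The constant `4n/(n-1)`. -/
def cn (n : ℕ) : ℝ := 4 * (n : ℝ) / ((n : ℝ) - 1)

/-- The first coordinate of the model curve, `n(n+1) (ω_n ∫_0^t sin^n)^{2/(n+1)}`. -/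
def amod (n : ℕ) (t : ℝ) : ℝ :=
  (n : ℝ) * ((n : ℝ) + 1) * (om n * ∫ s in (0 : ℝ)..t, Real.sin s ^ n) ^ ((2 : ℝ) / ((n : ℝ) + 1))

/-- The second coordinate of the model curve, `2 n ω_n^{1/n} cos t`. -/
def bmod (n : ℕ) (t : ℝ) : ℝ := 2 * (n : ℝ) * om n ^ ((1 : ℝ) / (n : ℝ)) * Real.cos t

variable {X : Type} [TopologicalSpace X] [MeasurableSpace X]
  {F : Type} [NormedAddCommGroup F] [InnerProductSpace ℝ F] [FiniteDimensional ℝ F]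

/-- `P(w) = ‖w‖²` in `L^{2(n+1)/(n-1)}(μ)`. -/
def PP (n : ℕ) (μ : Measure X) (w : X → ℝ) : ℝ := (∫ x, |w x| ^ pp n ∂μ) ^ (2 / pp n)

/-- `Q(τ) = ‖τ‖²` in `L^{2n/(n-1)}(σ)`. -/
def QQ (n : ℕ) (σ : Measure X) (τ : X → ℝ) : ℝ := (∫ x, |τ x| ^ qq n ∂σ) ^ (2 / qq n)


/-- The Dirichlet energy `∫ ‖ζ‖² dμ`. -/
def DD (μ : Measure X) (ζ : X → F) : ℝ := ∫ x, ‖ζ x‖ ^ 2 ∂μ

/-- The energy `E = (4n/(n-1)) ∫ ‖ζ‖² + ∫ R w² + 2 ∫ H τ²`. -/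
def EE (n : ℕ) (μ σ : Measure X) (R H : X → ℝ) (w : X → ℝ) (ζ : X → F) (τ : X → ℝ) : ℝ :=
  cn n * DD μ ζ + ∫ x, R x * w x ^ 2 ∂μ + 2 * ∫ x, H x * τ x ^ 2 ∂σ

/-- The setting of the analytic part. -/
structure IsSob (n : ℕ) (μ σ : Measure X) (A : Set (X → ℝ)) (D : (X → ℝ) → X → F) : Prop where
  fin_μ : μ univ < ⊤
  fin_σ : σ univ < ⊤
  cont : ∀ u ∈ A, Continuous u
  contD : ∀ u ∈ A, Continuous (D u)
  const : ∀ c : ℝ, (fun _ => c) ∈ A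
  add : ∀ u ∈ A, ∀ v ∈ A, (fun x => u x + v x) ∈ A
  smul : ∀ (c : ℝ), ∀ u ∈ A, (fun x => c * u x) ∈ A
  comp : ∀ f : ℝ → ℝ, ContDiff ℝ 1 f → ∀ u ∈ A, (fun x => f (u x)) ∈ A
  D_const : ∀ c : ℝ, D (fun _ => c) = 0
  D_add : ∀ u ∈ A, ∀ v ∈ A, D (fun x => u x + v x) = D u + D v
  D_smul : ∀ (c : ℝ), ∀ u ∈ A, D (fun x => c * u x) = c • D u
  D_comp : ∀ f : ℝ → ℝ, ContDiff ℝ 1 f → ∀ u ∈ A, D (fun x => f (u x)) = fun x => deriv f (u x) • D u x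
  /-- Sobolev and trace inequalities with the critical exponents. -/
  sob : ∃ C : ℝ, ∀ u ∈ A, PP n μ u + QQ n σ u ≤ C * (DD μ (D u) + ∫ x, u x ^ 2 ∂μ)
  /-- Interpolation for the trace. -/
  tr : ∀ ε > 0, ∃ C : ℝ, ∀ u ∈ A, ∫ x, u x ^ 2 ∂σ ≤ ε * DD μ (D u) + C * ∫ x, u x ^ 2 ∂μ
  /-- Rellich's theorem. -/
  rel : ∀ u : ℕ → X → ℝ, (∀ k, u k ∈ A) → (∃ C : ℝ, ∀ k, DD μ (D (u k)) + ∫ x, u k x ^ 2 ∂μ ≤ C) →
    ∃ φ : ℕ → ℕ, StrictMono φ ∧ ∀ ε > 0, ∃ N, ∀ j ≥ N, ∀ k ≥ N,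
      ∫ x, (u (φ j) x - u (φ k) x) ^ 2 ∂μ ≤ ε
  /-- Poincaré's inequality. -/
  poin : ∃ C : ℝ, ∀ u ∈ A, ∫ x, u x ^ 2 ∂μ ≤ C * (DD μ (D u) + (∫ x, u x ∂μ) ^ 2)

/-- The asymptotic sharp inequalities: near every point the space looks like the half space. -/
def HasAI (n : ℕ) (μ σ : Measure X) (A : Set (X → ℝ)) (D : (X → ℝ) → X → F) : Prop :=
  ∀ t ∈ Icc (0 : ℝ) (Real.pi / 2), ∀ ε > 0, ∃ C : ℝ, ∀ u ∈ A,
    amod n t * PP n μ u + bmod n t * QQ n σ u ≤ (1 + ε) * (cn n * DD μ (D u)) + C * ∫ x, u x ^ 2 ∂μ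

/-- `u_k → (w, ζ, τ)` in `H^1`: `u_k → w` and `D u_k → ζ` in `L²(μ)`, `u_k → τ` in `L²(σ)`. -/
def TendH (μ σ : Measure X) (D : (X → ℝ) → X → F) (u : ℕ → X → ℝ)
    (w : X → ℝ) (ζ : X → F) (τ : X → ℝ) : Prop :=
  Tendsto (fun k => ∫ x, (u k x - w x) ^ 2 ∂μ) atTop (𝓝 0) ∧
  Tendsto (fun k => ∫ x, ‖D (u k) x - ζ x‖ ^ 2 ∂μ) atTop (𝓝 0) ∧
  Tendsto (fun k => ∫ x, (u k x - τ x) ^ 2 ∂σ) atTop (𝓝 0)

/-- `(w, ζ, τ)` belongs to `H^1`: function, weak gradient, trace. -/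
structure InH (μ σ : Measure X) (A : Set (X → ℝ)) (D : (X → ℝ) → X → F)
    (w : X → ℝ) (ζ : X → F) (τ : X → ℝ) : Prop where
  memw : MemLp w 2 μ
  memz : MemLp ζ 2 μ
  memt : MemLp τ 2 σ
  ex : ∃ u : ℕ → X → ℝ, (∀ k, u k ∈ A) ∧ TendH μ σ D u w ζ τ

/-- The weak equation with constants `lam`, `kap`. -/
def WeakEq (n : ℕ) (μ σ : Measure X) (R H : X → ℝ) (A : Set (X → ℝ)) (D : (X → ℝ) → X → F)
    (lam kap : ℝ) (w : X → ℝ) (ζ : X → F) (τ : X → ℝ) : Prop :=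
  ∀ φ ∈ A, cn n * ∫ x, inner ℝ (ζ x) (D φ x) ∂μ + ∫ x, R x * w x * φ x ∂μ
      + 2 * ∫ x, H x * τ x * φ x ∂σ
    = lam * ∫ x, |w x| ^ (pp n - 1) * φ x ∂μ + kap * ∫ x, |τ x| ^ (qq n - 1) * φ x ∂σ

/-- The inequality satisfied by bounded positive solutions of the weak equation (regularity theory and
geometry, parts S4 and S5). -/
def RegIneq (n : ℕ) (μ σ : Measure X) (R H : X → ℝ) (A : Set (X → ℝ)) (D : (X → ℝ) → X → F)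
    (Y : ℝ) : Prop :=
  ∀ (lam kap : ℝ) (w : X → ℝ) (ζ : X → F) (τ : X → ℝ) (c C : ℝ), InH μ σ A D w ζ τ → 0 < c →
    (∀ᵐ x ∂μ, c ≤ w x ∧ w x ≤ C) → (∀ᵐ x ∂σ, c ≤ τ x ∧ τ x ≤ C) →
    WeakEq n μ σ R H A D lam kap w ζ τ →
    Y * (∫ x, |τ x| ^ qq n ∂σ) ^ (((n : ℝ) - 2) / (n : ℝ)) ≤
      ((n : ℝ) - 1) / (4 * (n : ℝ)) * kap ^ 2 * ∫ x, |τ x| ^ qq n ∂σ +
      ((n : ℝ) - 1) / ((n : ℝ) + 1) * lam * ∫ x, |τ x| ^ qq n ∂σ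

end

end Pool.Agent.CY
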